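import Pool.Agent.Helper34.Tube1

/-!
# MP_e5cefd_an, Q1: a set with positive finite `H^(d-1)` and all tube bounds below `d - 1`

For every `d ≥ 2` there is a compact set `K ⊆ ℝ^d` with `0 < H^(d-1)(K) < ∞` such that for every
exponent `s < d - 1` there is a constant `C` with `H^(d-1)(K ∩ T) ≤ C w(T)^s` for all tubes `T`.

Construction. Put `d = n + 1`. At stage `k` every cube of side `δ_k` is divided into `m^(n+1)` cubes,
`m = 2^(k+1)`, and one keeps those over the graph of one function `g_k` from the grid `{0,…,m-1}^n`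
to `{0,…,m-1}`. So `K` projects onto `[0,1]^n` and has positive measure, and the obvious coverings
show that its measure is finite. By a union bound over rounded lines the functions `g_k` can be
chosen such that every line passes near at most `k + c` points of the graph of `g_k`. Hence a tube of
width `δ_k` meets at most `c (c+1) ⋯ (c+k-1)` of the cubes of stage `k`, which is less than every
negative power of `δ_k = 2^(-k(k+1)/2)`.
-/

open Finset MeasureTheory Filter Topology Set
open scoped ENNReal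

noncomputable section

namespace Pool.Agent.Results.MP_e5cefd_an.TubeBounds

open Pool.Agent.Helper34.Tube

/-- The closed tube of width `w` around the line through `p` with direction `v`. -/
def tube {d : ℕ} (p v : EuclideanSpace ℝ (Fin d)) (w : ℝ) : Set (EuclideanSpace ℝ (Fin d)) :=
  {x | Metric.infDist x (Set.range fun t : ℝ => p + t • v) ≤ w / 2}

/-- The number `2 ^ (1 + 2 + ... + l)`, the reciprocal of the side of the cubes of stage `l`. -/
def M : ℕ → ℕ
  | 0 => 1
  | l + 1 => M l * 2 ^ (l + 1)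

theorem M_pos (l : ℕ) : 0 < M l := by
  induction l with
  | zero => simp [M]
  | succ l ih => simp only [M]; positivity

theorem M_mono : Monotone M := by
  refine monotone_nat_of_le_succ fun l => ?_
  simp only [M]
  exact Nat.le_mul_of_pos_right _ (by positivity)

theorem le_M (l : ℕ) : l ≤ M l := by
  induction l with
  | zero => simp
  | succ l ih =>
    simp only [M]
    have h1 := M_pos l
    have h2 : 2 ≤ 2 ^ (l + 1) := by
      calc 2 = 2 ^ 1 := rfl
        _ ≤ 2 ^ (l + 1) := Nat.pow_le_pow_right (by norm_num) (by omega)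
    calc l + 1 ≤ M l + M l := by omega
      _ = M l * 2 := by ring
      _ ≤ M l * 2 ^ (l + 1) := Nat.mul_le_mul_left _ h2

section

variable {n : ℕ} (g : ∀ k : ℕ, (Fin n → Fin (2 ^ (k + 1))) → Fin (2 ^ (k + 1)))

/-- The child number `a` of the cube `p` of stage `l`. -/
def child (l : ℕ) (p : Fin (n + 1) → ℤ) (a : Fin n → Fin (2 ^ (l + 1))) : Fin (n + 1) → ℤ :=
  fun j => 2 ^ (l + 1) * p j + vec a (g l a) j

/-- The cubes of stage `l`, given by their integer corners. -/
def P : ℕ → Finset (Fin (n + 1) → ℤ)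
  | 0 => {0}
  | l + 1 => (P l).biUnion fun p => univ.image (child g l p)

/-- The closed cube of stage `l` with corner `p / M l`. -/
def Q (l : ℕ) (p : Fin (n + 1) → ℤ) : Set (EuclideanSpace ℝ (Fin (n + 1))) :=
  {x | ∀ j, (p j : ℝ) ≤ M l * x j ∧ (M l : ℝ) * x j ≤ p j + 1}

/-- The set. -/
def K : Set (EuclideanSpace ℝ (Fin (n + 1))) := {x | ∀ l, ∃ p ∈ P g l, x ∈ Q l p}

theorem Q_child (l : ℕ) (p : Fin (n + 1) → ℤ) (a : Fin n → Fin (2 ^ (l + 1))) :
    Q (l + 1) (child g l p a) ⊆ Q l p := by
  intro x hx j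
  have hx := hx j
  have h1 := vec_nonneg a (g l a) j
  have h2 := vec_lt a (g l a) j
  have h1' : (0 : ℝ) ≤ vec a (g l a) j := by exact_mod_cast h1
  have h2' : (vec a (g l a) j : ℝ) + 1 ≤ 2 ^ (l + 1) := by
    have : vec a (g l a) j + 1 ≤ ((2 ^ (l + 1) : ℕ) : ℤ) := h2
    exact_mod_cast this
  simp only [child, M] at hx
  push_cast at hx
  have hm : (0 : ℝ) < 2 ^ (l + 1) := by positivity
  constructor
  · have : (2 : ℝ) ^ (l + 1) * p j ≤ 2 ^ (l + 1) * (M l * x j) := by nlinarith [hx.1]
    exact le_of_mul_le_mul_left this hm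
  · have : (2 : ℝ) ^ (l + 1) * (M l * x j) ≤ 2 ^ (l + 1) * (p j + 1) := by nlinarith [hx.2]
    exact le_of_mul_le_mul_left this hm

theorem Q_closed (l : ℕ) (p : Fin (n + 1) → ℤ) : IsClosed (Q l p) := by
  have : Q l p = ⋂ j, ({x | (p j : ℝ) ≤ M l * x j} ∩ {x | (M l : ℝ) * x j ≤ p j + 1}) := by
    ext x; simp [Q]
  rw [this]
  refine isClosed_iInter fun j => IsClosed.inter ?_ ?_
  · exact isClosed_le continuous_const (by fun_prop)
  · exact isClosed_le (by fun_prop) continuous_const

theorem dist_le_of_mem {l : ℕ} {p : Fin (n + 1) → ℤ} {x y : EuclideanSpace ℝ (Fin (n + 1))}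
    (hx : x ∈ Q l p) (hy : y ∈ Q l p) : dist x y ≤ (n + 1) / M l := by
  have hM : (0 : ℝ) < M l := by exact_mod_cast M_pos l
  have h : ∀ j, dist (x j) (y j) ≤ 1 / M l := by
    intro j
    rw [Real.dist_eq, le_div_iff₀ hM]
    have h1 := hx j
    have h2 := hy j
    have : |x j - y j| * M l = |M l * x j - M l * y j| := by
      rw [← mul_sub, abs_mul, abs_of_pos hM, mul_comm]
    rw [this, abs_le]
    constructor <;> linarith [h1.1, h1.2, h2.1, h2.2]
  rw [EuclideanSpace.dist_eq]
  refine Real.sqrt_le_iff.2 ⟨by positivity, ?_⟩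
  calc ∑ j, dist (x j) (y j) ^ 2 ≤ ∑ j : Fin (n + 1), (1 / (M l : ℝ)) ^ 2 :=
        Finset.sum_le_sum fun j _ => pow_le_pow_left₀ dist_nonneg (h j) 2
    _ = (n + 1) * (1 / (M l : ℝ)) ^ 2 := by simp
    _ ≤ (n + 1) ^ 2 * (1 / (M l : ℝ)) ^ 2 := by
        refine mul_le_mul_of_nonneg_right ?_ (by positivity)
        nlinarith [(Nat.cast_nonneg n : (0 : ℝ) ≤ n)]
    _ = ((n + 1) / (M l : ℝ)) ^ 2 := by ring

theorem K_compact : IsCompact (K g) := by
  refine Metric.isCompact_of_isClosed_isBounded ?_ ?_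
  · have : K g = ⋂ l, ⋃ p ∈ P g l, Q l p := by
      ext x; simp [K]
    rw [this]
    exact isClosed_iInter fun l => (P g l).finite_toSet.isClosed_biUnion fun p _ => Q_closed l p
  · refine Metric.isBounded_iff.2 ⟨(n + 1) / M 0, ?_⟩
    intro x hx y hy
    obtain ⟨p, hp, hxp⟩ := hx 0
    obtain ⟨q, hq, hyq⟩ := hy 0
    simp only [P, Finset.mem_singleton] at hp hq
    subst hp; subst hq
    exact dist_le_of_mem hxp hyq

open Classical in
/-- The cubes of stage `l` which meet `T`. -/
def hit (T : Set (EuclideanSpace ℝ (Fin (n + 1)))) (l : ℕ) : Finset (Fin (n + 1) → ℤ) :=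
  (P g l).filter fun p => (Q l p ∩ T).Nonempty

theorem hit_zero (T : Set (EuclideanSpace ℝ (Fin (n + 1)))) : (hit g T 0).card ≤ 1 := by
  classical
  unfold hit
  exact (Finset.card_filter_le _ _).trans (by simp [P])

theorem hit_succ (T : Set (EuclideanSpace ℝ (Fin (n + 1)))) (l B : ℕ)
    (hB : ∀ p, ∀ F : Finset (Fin n → Fin (2 ^ (l + 1))),
      (∀ a ∈ F, (Q (l + 1) (child g l p a) ∩ T).Nonempty) → F.card ≤ B) :
    (hit g T (l + 1)).card ≤ (hit g T l).card * B := by
  classical
  have hsub : hit g T (l + 1) ⊆ (hit g T l).biUnion fun p =>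
      (univ.filter fun a => (Q (l + 1) (child g l p a) ∩ T).Nonempty).image (child g l p) := by
    intro q hq
    unfold hit at hq
    rw [Finset.mem_filter] at hq
    obtain ⟨hq1, hq2⟩ := hq
    simp only [P, Finset.mem_biUnion, Finset.mem_image, Finset.mem_univ, true_and] at hq1
    obtain ⟨p, hp, a, rfl⟩ := hq1
    simp only [Finset.mem_biUnion, Finset.mem_image, Finset.mem_filter, Finset.mem_univ, true_and]
    refine ⟨p, ?_, a, hq2, rfl⟩
    unfold hit
    rw [Finset.mem_filter]
    exact ⟨hp, hq2.mono (inter_subset_inter_left _ (Q_child g l p a))⟩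
  refine (Finset.card_le_card hsub).trans (Finset.card_biUnion_le.trans ?_)
  refine (Finset.sum_le_card_nsmul _ _ B fun p _ => ?_).trans (le_of_eq (smul_eq_mul _ _))
  exact Finset.card_image_le.trans (hB p _ fun a ha => (Finset.mem_filter.1 ha).2)

theorem hit_triv (T : Set (EuclideanSpace ℝ (Fin (n + 1)))) (l : ℕ) :
    (hit g T (l + 1)).card ≤ (hit g T l).card * (2 ^ (l + 1)) ^ n := by
  refine hit_succ g T l _ fun p F _ => ?_
  refine (Finset.card_le_univ F).trans (le_of_eq ?_)
  simp

theorem hit_ratio (T : Set (EuclideanSpace ℝ (Fin (n + 1)))) (k l : ℕ) (h : k ≤ l) :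
    (hit g T l).card * M k ^ n ≤ (hit g T k).card * M l ^ n := by
  induction l, h using Nat.le_induction with
  | base => exact le_rfl
  | succ l _ ih =>
    simp only [M]
    calc (hit g T (l + 1)).card * M k ^ n
        ≤ (hit g T l).card * (2 ^ (l + 1)) ^ n * M k ^ n := Nat.mul_le_mul_right _ (hit_triv g T l)
      _ = ((hit g T l).card * M k ^ n) * (2 ^ (l + 1)) ^ n := by ring
      _ ≤ ((hit g T k).card * M l ^ n) * (2 ^ (l + 1)) ^ n := Nat.mul_le_mul_right _ ih
      _ = (hit g T k).card * (M l * 2 ^ (l + 1)) ^ n := by ring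

/-- The Hausdorff measure of `K ∩ T` is controlled by the number of cubes of stage `k` meeting `T`. -/
theorem measure_le (hn : n ≠ 0) (T : Set (EuclideanSpace ℝ (Fin (n + 1)))) (k : ℕ) :
    μH[(n : ℝ)] (K g ∩ T) ≤
      ENNReal.ofReal (((hit g T k).card : ℝ) * (n + 1) ^ n / (M k : ℝ) ^ n) := by
  classical
  have hMk : (0 : ℝ) < M k := by exact_mod_cast M_pos k
  have h1 := Measure.hausdorffMeasure_le_liminf_sum (ι := fun l : ℕ => {p // p ∈ P g l}) (n : ℝ)
    (K g ∩ T) (l := atTop) (fun l => ENNReal.ofReal ((n + 1) / M l)) (by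
      have : Tendsto (fun l : ℕ => ((n : ℝ) + 1) / M l) atTop (𝓝 0) := by
        refine Tendsto.div_atTop tendsto_const_nhds ?_
        exact tendsto_natCast_atTop_atTop.comp (tendsto_atTop_mono le_M tendsto_id)
      simpa using (ENNReal.tendsto_ofReal this)) (fun l p => Q l p.1 ∩ T)
    (Eventually.of_forall fun l p => by
      refine Metric.ediam_le fun x hx y hy => ?_
      rw [edist_dist]
      exact ENNReal.ofReal_le_ofReal (dist_le_of_mem hx.1 hy.1))
    (Eventually.of_forall fun l x hx => by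
      obtain ⟨p, hp, hxp⟩ := hx.1 l
      exact mem_iUnion.2 ⟨⟨p, hp⟩, hxp, hx.2⟩)
  refine h1.trans (liminf_le_of_frequently_le' (Eventually.frequently ?_))
  filter_upwards [eventually_ge_atTop k] with l hl
  have hMl : (0 : ℝ) < M l := by exact_mod_cast M_pos l
  have h2 : ∀ p : {p // p ∈ P g l}, Metric.ediam (Q l p.1 ∩ T) ^ (n : ℝ) ≤
      if (Q l p.1 ∩ T).Nonempty then ENNReal.ofReal (((n + 1) / M l) ^ n) else 0 := by
    intro p
    split_ifs with h
    · rw [ENNReal.rpow_natCast, ENNReal.ofReal_pow (by positivity)]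
      refine pow_le_pow_left' (Metric.ediam_le fun x hx y hy => ?_) n
      rw [edist_dist]
      exact ENNReal.ofReal_le_ofReal (dist_le_of_mem hx.1 hy.1)
    · rw [Set.not_nonempty_iff_eq_empty.1 h, Metric.ediam_empty, ENNReal.rpow_natCast]
      simp [hn]
  refine (Finset.sum_le_sum fun p _ => h2 p).trans ?_
  rw [← Finset.sum_filter, Finset.sum_const, nsmul_eq_mul]
  have h3 : ((univ : Finset {p // p ∈ P g l}).filter fun p => (Q l p.1 ∩ T).Nonempty).card =
      (hit g T l).card := by
    unfold hit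
    refine Finset.card_bij (fun p _ => p.1) ?_ ?_ ?_
    · intro p hp; simpa [p.2] using hp
    · intro p _ q _ h; exact Subtype.ext h
    · intro p hp
      rw [Finset.mem_filter] at hp
      exact ⟨⟨p, hp.1⟩, by simpa using hp.2, rfl⟩
  rw [h3, ← ENNReal.ofReal_natCast, ← ENNReal.ofReal_mul (by positivity)]
  refine ENNReal.ofReal_le_ofReal ?_
  have h4 : ((hit g T l).card : ℝ) * (M k : ℝ) ^ n ≤ (hit g T k).card * (M l : ℝ) ^ n := by
    exact_mod_cast hit_ratio g T k l hl
  rw [div_pow, ← mul_div_assoc, div_le_div_iff₀ (by positivity) (by positivity)]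
  have h5 : (0 : ℝ) ≤ ((n : ℝ) + 1) ^ n := by positivity
  nlinarith [mul_le_mul_of_nonneg_left h4 h5]

/-- The number of cubes met by a narrow tube. -/
theorem hit_tube (c : ℕ) (hg : ∀ k : ℕ, ∀ (a u : Fin (n + 1) → ℝ), u ≠ 0 →
      ∀ F : Finset (Fin n → Fin (2 ^ (k + 1))),
        (∀ x ∈ F, ∃ t : ℝ, ∀ j, |(vec x (g k x) j : ℝ) - (a j + t * u j)| ≤ 2) → F.card ≤ k + c)
    (p v : EuclideanSpace ℝ (Fin (n + 1))) (hv : v ≠ 0) (w : ℝ) (hw : 0 < w) (k : ℕ)
    (hk : w * M k ≤ 1) :
    (hit g (tube p v w) k).card ≤ ∏ j ∈ Finset.range k, (j + c) := by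
  classical
  have key : ∀ l ≤ k, (hit g (tube p v w) l).card ≤ ∏ j ∈ Finset.range l, (j + c) := by
    intro l hl
    induction l with
    | zero =>
      simp only [Finset.range_zero, Finset.prod_empty]
      exact hit_zero g _
    | succ l ih =>
      rw [Finset.prod_range_succ]
      refine (hit_succ g _ l (l + c) fun q F hF => ?_).trans
        (Nat.mul_le_mul_right _ (ih (by omega)))
      have hMl : (0 : ℝ) < M (l + 1) := by exact_mod_cast M_pos (l + 1)
      have hwM : w * M (l + 1) ≤ 1 := by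
        refine le_trans ?_ hk
        have : (M (l + 1) : ℝ) ≤ M k := by exact_mod_cast M_mono hl
        exact mul_le_mul_of_nonneg_left this hw.le
      refine hg l (fun j => M (l + 1) * p j - 2 ^ (l + 1) * q j) (fun j => v j) ?_ F ?_
      · intro h
        apply hv
        ext j
        exact congrFun h j
      · intro a ha
        obtain ⟨x, hxQ, hxT⟩ := hF a ha
        have hlt : Metric.infDist x (Set.range fun t : ℝ => p + t • v) < w :=
          lt_of_le_of_lt hxT (by linarith)
        obtain ⟨y, ⟨t, rfl⟩, hy⟩ := (Metric.infDist_lt_iff (Set.range_nonempty _)).1 hlt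
        refine ⟨M (l + 1) * t, fun j => ?_⟩
        have h1 := hxQ j
        have h2 : |x j - (p j + t * v j)| ≤ w := by
          have h3 : dist (x j) ((p + t • v) j) ≤ dist x (p + t • v) := by
            rw [EuclideanSpace.dist_eq]
            refine Real.le_sqrt_of_sq_le ?_
            exact Finset.single_le_sum (f := fun j => dist (x j) ((p + t • v) j) ^ 2)
              (fun _ _ => by positivity) (Finset.mem_univ j)
          have h4 : (p + t • v) j = p j + t * v j := by simp
          rw [h4, Real.dist_eq] at h3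
          linarith
        have h5 : |M (l + 1) * x j - M (l + 1) * (p j + t * v j)| ≤ 1 := by
          rw [← mul_sub, abs_mul, abs_of_pos hMl]
          calc (M (l + 1) : ℝ) * |x j - (p j + t * v j)| ≤ M (l + 1) * w :=
                mul_le_mul_of_nonneg_left h2 hMl.le
            _ ≤ 1 := by linarith
        simp only [child] at h1
        push_cast at h1
        rw [abs_le] at h5 ⊢
        constructor <;> linarith [h1.1, h1.2, h5.1, h5.2]
  exact key k le_rfl

/-- The projection of `K` is large. -/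
theorem K_pos : 1 ≤ μH[(n : ℝ)] (K g) := by
  have hlip : LipschitzWith 1 (fun (x : EuclideanSpace ℝ (Fin (n + 1))) (i : Fin n) => x i.succ) := by
    refine LipschitzWith.of_dist_le_mul fun x y => ?_
    rw [NNReal.coe_one, one_mul]
    refine (dist_pi_le_iff dist_nonneg).2 fun i => ?_
    rw [EuclideanSpace.dist_eq]
    refine Real.le_sqrt_of_sq_le ?_
    exact Finset.single_le_sum (f := fun j => dist (x j) (y j) ^ 2)
      (fun _ _ => by positivity) (Finset.mem_univ i.succ)
  have h1 := hlip.hausdorffMeasure_image_le (d := (n : ℝ)) (by positivity) (K g)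
  simp only [ENNReal.coe_one, ENNReal.one_rpow, one_mul] at h1
  refine le_trans ?_ h1
  have h2 : (Set.pi univ fun _ : Fin n => Ico (0 : ℝ) 1) ⊆
      (fun (x : EuclideanSpace ℝ (Fin (n + 1))) (i : Fin n) => x i.succ) '' K g := by
    intro y hy
    have hy0 : ∀ i, 0 ≤ y i := fun i => (hy i (mem_univ i)).1
    have hy1 : ∀ i, y i < 1 := fun i => (hy i (mem_univ i)).2
    -- digits
    let a : ∀ l : ℕ, Fin n → Fin (2 ^ (l + 1)) := fun l i =>
      ⟨⌊(M (l + 1) : ℝ) * y i⌋₊ % 2 ^ (l + 1), Nat.mod_lt _ (by positivity)⟩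
    obtain ⟨h, h0, hsucc⟩ : ∃ h : ℕ → ℕ, h 0 = 0 ∧
        ∀ l, h (l + 1) = 2 ^ (l + 1) * h l + (g l (a l) : ℕ) :=
      ⟨fun l => Nat.rec 0 (fun l r => 2 ^ (l + 1) * r + (g l (a l) : ℕ)) l, rfl, fun l => rfl⟩
    have hmem : ∀ l, (Fin.cons (α := fun _ => ℤ) (h l : ℤ)
        fun i => (⌊(M l : ℝ) * y i⌋₊ : ℤ)) ∈ P g l := by
      intro l
      induction l with
      | zero =>
        simp only [P, Finset.mem_singleton]
        funext j
        refine Fin.cases ?_ (fun i => ?_) j
        · simp [h0]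
        · simp only [Fin.cons_succ, M, Nat.cast_one, one_mul, Pi.zero_apply]
          exact_mod_cast Nat.floor_eq_zero.2 (hy1 i)
      | succ l ih =>
        simp only [P, Finset.mem_biUnion, Finset.mem_image, Finset.mem_univ, true_and]
        refine ⟨_, ih, a l, ?_⟩
        funext j
        refine Fin.cases ?_ (fun i => ?_) j
        · simp only [child, Fin.cons_zero, vec, hsucc]
          push_cast
          ring
        · simp only [child, Fin.cons_succ, vec, a]
          have e1 : ⌊(M l : ℝ) * y i⌋₊ = ⌊(M (l + 1) : ℝ) * y i⌋₊ / 2 ^ (l + 1) := by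
            rw [← Nat.floor_div_natCast]
            congr 1
            simp only [M]
            push_cast
            field_simp
          rw [e1]
          have e2 := Nat.div_add_mod ⌊(M (l + 1) : ℝ) * y i⌋₊ (2 ^ (l + 1))
          exact_mod_cast e2
    -- the height
    have hMp : ∀ l, (0 : ℝ) < M l := fun l => by exact_mod_cast M_pos l
    have hmono : Monotone fun l => (h l : ℝ) / M l := by
      refine monotone_nat_of_le_succ fun l => ?_
      simp only [hsucc, M]
      push_cast
      rw [div_le_div_iff₀ (hMp l) (by have := hMp l; positivity)]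
      have : (0 : ℝ) ≤ (g l (a l) : ℕ) := by positivity
      nlinarith [hMp l, mul_nonneg this (hMp l).le]
    have hanti : Antitone fun l => ((h l : ℝ) + 1) / M l := by
      refine antitone_nat_of_succ_le fun l => ?_
      simp only [hsucc, M]
      push_cast
      rw [div_le_div_iff₀ (by have := hMp l; positivity) (hMp l)]
      have : ((g l (a l) : ℕ) : ℝ) + 1 ≤ 2 ^ (l + 1) := by
        have := (g l (a l)).2
        exact_mod_cast this
      nlinarith [hMp l, mul_le_mul_of_nonneg_right this (hMp l).le]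
    have hle : (fun l => (h l : ℝ) / M l) ≤ fun l => ((h l : ℝ) + 1) / M l := fun l =>
      div_le_div_of_nonneg_right (by linarith) (hMp l).le
    have hx0 := hmono.ciSup_mem_iInter_Icc_of_antitone hanti hle
    set x0 : ℝ := ⨆ l, (h l : ℝ) / M l with hx0def
    rw [mem_iInter] at hx0
    refine ⟨WithLp.toLp 2 (Fin.cons x0 y), fun l => ⟨_, hmem l, fun j => ?_⟩, ?_⟩
    · refine Fin.cases ?_ (fun i => ?_) j
      · have h3 := hx0 l
        rw [Set.mem_Icc, div_le_iff₀ (hMp l), le_div_iff₀ (hMp l)] at h3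
        simp only [Fin.cons_zero]
        push_cast
        constructor <;> linarith [h3.1, h3.2]
      · simp only [Fin.cons_succ]
        push_cast
        exact ⟨Nat.floor_le (mul_nonneg (hMp l).le (hy0 i)), (Nat.lt_floor_add_one _).le⟩
    · funext i
      simp
  refine le_trans (le_of_eq ?_) (measure_mono h2)
  have h3 := hausdorffMeasure_pi_real (ι := Fin n)
  rw [Fintype.card_fin] at h3
  rw [h3, volume_pi_pi]
  simp

end

/-- The boundedness of the sequence of constants. -/
theorem bounded_seq (n c : ℕ) (hc : 1 ≤ c) (s : ℝ) (hs : s < n) :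
    ∃ A : ℝ, ∀ k : ℕ, ((∏ j ∈ Finset.range k, (j + c) : ℕ) : ℝ) * (M (k + 1) : ℝ) ^ s /
      (M k : ℝ) ^ n ≤ A := by
  set f : ℕ → ℝ := fun k => ((∏ j ∈ Finset.range k, (j + c) : ℕ) : ℝ) * (M (k + 1) : ℝ) ^ s /
      (M k : ℝ) ^ n with hf
  have hMp : ∀ l, (0 : ℝ) < M l := fun l => by exact_mod_cast M_pos l
  have hprod : ∀ k, (0 : ℝ) < ((∏ j ∈ Finset.range k, (j + c) : ℕ) : ℝ) := fun k => by
    have : 0 < ∏ j ∈ Finset.range k, (j + c) := Finset.prod_pos fun j _ => by omega
    exact_mod_cast this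
  have hfpos : ∀ k, 0 < f k := fun k => by
    have h1 := hMp k
    have h2 := Real.rpow_pos_of_pos (hMp (k + 1)) s
    have h3 := hprod k
    simp only [hf]
    positivity
  have hratio : ∀ k, f (k + 1) / f k =
      2 ^ s * (((k : ℝ) + c) * ((2 : ℝ) ^ (s - n)) ^ (k + 1)) := by
    intro k
    have h1 := hMp k
    have h2 := Real.rpow_pos_of_pos (hMp (k + 1)) s
    have h3 := hprod k
    have e1 : (M (k + 1 + 1) : ℝ) ^ s = (M (k + 1) : ℝ) ^ s * ((2 : ℝ) ^ (k + 1 + 1)) ^ s := by
      rw [← Real.mul_rpow (hMp _).le (by positivity)]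
      congr 1
      simp only [M]
      push_cast
      ring
    have e2 : (M (k + 1) : ℝ) ^ n = (M k : ℝ) ^ n * ((2 : ℝ) ^ (k + 1)) ^ n := by
      simp only [M]
      push_cast
      ring
    have e3 : ((2 : ℝ) ^ (k + 1 + 1)) ^ s = 2 ^ s * ((2 : ℝ) ^ s) ^ (k + 1) := by
      rw [pow_succ, Real.mul_rpow (by positivity) (by positivity), mul_comm]
      congr 1
      rw [← Real.rpow_natCast, ← Real.rpow_mul (by norm_num), ← Real.rpow_natCast,
        ← Real.rpow_mul (by norm_num), mul_comm]
    have e4 : ((2 : ℝ) ^ (s - n)) ^ (k + 1) = ((2 : ℝ) ^ s) ^ (k + 1) / ((2 : ℝ) ^ (k + 1)) ^ n := by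
      rw [Real.rpow_sub (by norm_num), div_pow, Real.rpow_natCast]
      congr 1
      rw [← pow_mul, ← pow_mul, mul_comm]
    simp only [hf]
    rw [Finset.prod_range_succ]
    push_cast
    push_cast at h3
    rw [e1, e2, e3, e4]
    field_simp
  have hlim : Tendsto (fun k => ‖f (k + 1)‖ / ‖f k‖) atTop (𝓝 0) := by
    have h1 : (fun k => ‖f (k + 1)‖ / ‖f k‖) =
        fun k : ℕ => 2 ^ s * (((k : ℝ) + c) * ((2 : ℝ) ^ (s - n)) ^ (k + 1)) := by
      funext k
      rw [Real.norm_of_nonneg (hfpos _).le, Real.norm_of_nonneg (hfpos _).le, hratio]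
    rw [h1]
    set r : ℝ := (2 : ℝ) ^ (s - n) with hr
    have hr0 : 0 < r := by positivity
    have hr1 : r < 1 := Real.rpow_lt_one_of_one_lt_of_neg (by norm_num) (by linarith)
    have t1 := tendsto_self_mul_const_pow_of_lt_one hr0.le hr1
    have t2 := tendsto_pow_atTop_nhds_zero_of_lt_one hr0.le hr1
    have t3 : Tendsto (fun k : ℕ => 2 ^ s * (((k : ℝ) * r ^ k) * r + c * r ^ k * r)) atTop (𝓝 0) := by
      have := ((t1.mul_const r).add ((t2.const_mul (c : ℝ)).mul_const r)).const_mul ((2 : ℝ) ^ s)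
      simpa using this
    refine t3.congr fun k => ?_
    ring
  have hsum := summable_of_ratio_test_tendsto_lt_one (zero_lt_one) (Eventually.of_forall fun k =>
    (hfpos k).ne') hlim
  obtain ⟨A, hA⟩ := hsum.tendsto_atTop_zero.bddAbove_range
  exact ⟨A, fun k => hA ⟨k, rfl⟩⟩

/-- **Answer to Q1.** For every `d ≥ 2` there is a compact set `K ⊆ ℝ^d` with
`0 < H^(d-1)(K) < ∞` such that for every exponent `s < d - 1` there is a constant `C` with
`H^(d-1)(K ∩ T) ≤ C w^s` for all tubes `T` of width `w` (if `s < 0`: of width `w ≤ 1`). -/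
theorem result (d : ℕ) (hd : 2 ≤ d) :
    ∃ K : Set (EuclideanSpace ℝ (Fin d)), IsCompact K ∧
      0 < μH[(d : ℝ) - 1] K ∧ μH[(d : ℝ) - 1] K < ∞ ∧
      ∀ s : ℝ, s < (d : ℝ) - 1 → ∃ C : ℝ, ∀ p v : EuclideanSpace ℝ (Fin d), v ≠ 0 →
        ∀ w : ℝ, 0 < w → (0 ≤ s ∨ w ≤ 1) →
          μH[(d : ℝ) - 1] (K ∩ tube p v w) ≤ ENNReal.ofReal (C * w ^ s) := by
  obtain ⟨n, rfl⟩ : ∃ n, d = n + 1 := ⟨d - 1, by omega⟩
  have hn : n ≠ 0 := by omega
  have hd1 : ((n + 1 : ℕ) : ℝ) - 1 = n := by push_cast; ring
  rw [hd1]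
  obtain ⟨c, hc, hdisc⟩ := discrete n
  choose g hg using hdisc
  have hMp : ∀ l, (0 : ℝ) < M l := fun l => by exact_mod_cast M_pos l
  -- the total measure
  have htot : ∀ T : Set (EuclideanSpace ℝ (Fin (n + 1))),
      μH[(n : ℝ)] (K g ∩ T) ≤ ENNReal.ofReal (((n : ℝ) + 1) ^ n) := by
    intro T
    refine (measure_le g hn T 0).trans (ENNReal.ofReal_le_ofReal ?_)
    have h1 : ((hit g T 0).card : ℝ) ≤ 1 := by
      have : (hit g T 0).card ≤ 1 := hit_zero g T
      exact_mod_cast this
    have h2 : (0 : ℝ) ≤ ((n : ℝ) + 1) ^ n := by positivity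
    simp only [M, Nat.cast_one, one_pow, div_one]
    nlinarith
  refine ⟨K g, K_compact g, lt_of_lt_of_le zero_lt_one (K_pos g), ?_, fun s hs => ?_⟩
  · have := htot univ
    rw [Set.inter_univ] at this
    exact lt_of_le_of_lt this ENNReal.ofReal_lt_top
  · obtain ⟨A, hA⟩ := bounded_seq n c hc s hs
    have hA0 : 0 ≤ A := by
      refine le_trans ?_ (hA 0)
      have := Real.rpow_nonneg (hMp 1).le s
      have := hMp 0
      positivity
    set N : ℝ := ((n : ℝ) + 1) ^ n with hN
    have hN0 : 0 ≤ N := by positivity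
    refine ⟨N * (A + 1), fun p v hv w hw hsw => ?_⟩
    by_cases hbig : 1 ≤ w ^ s
    · refine (htot _).trans (ENNReal.ofReal_le_ofReal ?_)
      have : N * 1 ≤ N * (A + 1) := mul_le_mul_of_nonneg_left (by linarith) hN0
      nlinarith [mul_le_mul this hbig zero_le_one (by positivity : 0 ≤ N * (A + 1))]
    · push Not at hbig
      have hs0 : 0 < s := by
        by_contra hcon
        push Not at hcon
        rcases hsw with h | h
        · have : s = 0 := le_antisymm hcon h
          rw [this, Real.rpow_zero] at hbig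
          exact lt_irrefl _ hbig
        · exact absurd (Real.one_le_rpow_of_pos_of_le_one_of_nonpos hw h hcon) (not_le.2 hbig)
      have hw1 : w < 1 := by
        by_contra hcon
        push Not at hcon
        exact absurd (Real.one_le_rpow hcon hs0.le) (not_le.2 hbig)
      -- the stage
      have hex : ∃ k : ℕ, 1 < w * M (k + 1) := by
        obtain ⟨k, hk⟩ := exists_nat_gt (1 / w)
        refine ⟨k, ?_⟩
        have h1 : (k : ℝ) ≤ M (k + 1) := by exact_mod_cast (le_M k).trans (M_mono (by omega))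
        rw [div_lt_iff₀ hw] at hk
        nlinarith
      classical
      set k := Nat.find hex with hk
      have hk1 : 1 < w * M (k + 1) := Nat.find_spec hex
      have hk2 : w * M k ≤ 1 := by
        rcases Nat.eq_zero_or_pos k with h | h
        · rw [h]; simp only [M, Nat.cast_one, mul_one]; exact hw1.le
        · have := Nat.find_min hex (m := k - 1) (by omega)
          rw [Nat.sub_add_cancel h] at this
          exact not_lt.1 this
      have hcard := hit_tube g c hg p v hv w hw k hk2
      refine (measure_le g hn (tube p v w) k).trans (ENNReal.ofReal_le_ofReal ?_)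
      have hcard' : ((hit g (tube p v w) k).card : ℝ) ≤
          ((∏ j ∈ Finset.range k, (j + c) : ℕ) : ℝ) := by exact_mod_cast hcard
      have hMs : 1 ≤ (M (k + 1) : ℝ) ^ s * w ^ s := by
        rw [← Real.mul_rpow (hMp _).le hw.le]
        exact Real.one_le_rpow (by linarith) hs0.le
      have hws : 0 < w ^ s := Real.rpow_pos_of_pos hw s
      have hMk : 0 < (M k : ℝ) ^ n := by have := hMp k; positivity
      have hAk := hA k
      calc ((hit g (tube p v w) k).card : ℝ) * (n + 1) ^ n / (M k : ℝ) ^ n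
          ≤ ((∏ j ∈ Finset.range k, (j + c) : ℕ) : ℝ) * N / (M k : ℝ) ^ n := by
            gcongr
        _ ≤ ((∏ j ∈ Finset.range k, (j + c) : ℕ) : ℝ) * N / (M k : ℝ) ^ n *
              ((M (k + 1) : ℝ) ^ s * w ^ s) := le_mul_of_one_le_right (by positivity) hMs
        _ = N * (((∏ j ∈ Finset.range k, (j + c) : ℕ) : ℝ) * (M (k + 1) : ℝ) ^ s /
              (M k : ℝ) ^ n) * w ^ s := by ring
        _ ≤ N * A * w ^ s := by gcongr
        _ ≤ N * (A + 1) * w ^ s := by gcongr; linarith

end Pool.Agent.Results.MP_e5cefd_an.TubeBounds
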